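import Pool.Agent.Helper24.OCM.Key

/-! # Adjacent vertices with the same depth parity in a Meyniel graph -/

set_option autoImplicit false

namespace Pool.Agent.Helper24.OCM

variable {V : Type*}

/-- the cycle `a s, ..., a 0, b 0, ..., b t` -/
def strip (a b : ℕ → V) (s : ℕ) (m : ℕ) : V := if m ≤ s then a (s - m) else b (m - s - 1)

theorem strip_le {a b : ℕ → V} {s m : ℕ} (h : m ≤ s) : strip a b s m = a (s - m) := if_pos h

theorem strip_gt {a b : ℕ → V} {s m : ℕ} (h : s < m) : strip a b s m = b (m - s - 1) :=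
  if_neg (by omega)

/-- hypotheses on two root paths with an induced cycle -/
structure Hole (G : SimpleGraph V) (a b : ℕ → V) (s t : ℕ) : Prop where
  a_adj : ∀ i, i + 1 ≤ s → G.Adj (a i) (a (i + 1))
  b_adj : ∀ i, i + 1 ≤ t → G.Adj (b i) (b (i + 1))
  a_nadj : ∀ i j, i + 1 < j → j ≤ s → ¬ G.Adj (a i) (a j)
  b_nadj : ∀ i j, i + 1 < j → j ≤ t → ¬ G.Adj (b i) (b j)
  a_ne : ∀ i j, i < j → j ≤ s → a i ≠ a j
  b_ne : ∀ i j, i < j → j ≤ t → b i ≠ b j
  ab : G.Adj (a 0) (b 0)
  top : G.Adj (a s) (b t)
  ne : ∀ i j, i ≤ s → j ≤ t → a i ≠ b j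
  nadj : ∀ i j, i ≤ s → j ≤ t → ¬ (i = 0 ∧ j = 0) → ¬ (i = s ∧ j = t) → ¬ G.Adj (a i) (b j)

namespace Hole

variable {G : SimpleGraph V} {a b : ℕ → V} {s t : ℕ}

theorem strip_adj (h : Hole G a b s t) {m : ℕ} (hm : m + 1 < s + t + 2) :
    G.Adj (strip a b s m) (strip a b s (m + 1)) := by
  rcases Nat.lt_trichotomy m s with h1 | h1 | h1
  · rw [strip_le h1.le, strip_le (by omega)]
    have := h.a_adj (s - (m + 1)) (by omega)
    rw [show s - (m + 1) + 1 = s - m by omega] at this
    exact this.symm
  · subst h1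
    rw [strip_le le_rfl, strip_gt (by omega)]
    have e1 : m - m = 0 := by omega
    have e2 : m + 1 - m - 1 = 0 := by omega
    rw [e1, e2]; exact h.ab
  · rw [strip_gt h1, strip_gt (by omega)]
    have := h.b_adj (m - s - 1) (by omega)
    rwa [show m - s - 1 + 1 = m + 1 - s - 1 by omega] at this

theorem strip_inj (h : Hole G a b s t) {i j : ℕ} (hi : i < s + t + 2) (hj : j < s + t + 2)
    (he : strip a b s i = strip a b s j) : i = j := by
  rcases Nat.lt_or_ge s i with h1 | h1 <;> rcases Nat.lt_or_ge s j with h2 | h2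
  · rw [strip_gt h1, strip_gt h2] at he
    rcases Nat.lt_trichotomy (i - s - 1) (j - s - 1) with h3 | h3 | h3
    · exact absurd he (h.b_ne _ _ h3 (by omega))
    · omega
    · exact absurd he.symm (h.b_ne _ _ h3 (by omega))
  · rw [strip_gt h1, strip_le h2] at he
    exact absurd he.symm (h.ne _ _ (by omega) (by omega))
  · rw [strip_le h1, strip_gt h2] at he
    exact absurd he (h.ne _ _ (by omega) (by omega))
  · rw [strip_le h1, strip_le h2] at he
    rcases Nat.lt_trichotomy (s - i) (s - j) with h3 | h3 | h3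
    · exact absurd he (h.a_ne _ _ h3 (by omega))
    · omega
    · exact absurd he.symm (h.a_ne _ _ h3 (by omega))

/-- the only adjacent pairs of the strip are the consecutive ones and the ends -/
theorem strip_nadj (h : Hole G a b s t) {i j : ℕ} (hij : i + 1 < j) (hj : j < s + t + 2)
    (he : ¬ (i = 0 ∧ j = s + t + 1)) : ¬ G.Adj (strip a b s i) (strip a b s j) := by
  intro hadj
  rcases Nat.lt_or_ge s i with h1 | h1 <;> rcases Nat.lt_or_ge s j with h2 | h2
  · rw [strip_gt h1, strip_gt h2] at hadj
    exact h.b_nadj _ _ (by omega) (by omega) hadj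
  · omega
  · rw [strip_le h1, strip_gt h2] at hadj
    refine h.nadj (s - i) (j - s - 1) (by omega) (by omega) ?_ ?_ hadj
    · rintro ⟨e1, e2⟩; omega
    · rintro ⟨e1, e2⟩; apply he; constructor <;> omega
  · rw [strip_le h1, strip_le h2] at hadj
    exact h.a_nadj _ _ (by omega) (by omega) hadj.symm

theorem even (h : Hole G a b s t) (hG : IsMeyniel G) (h2 : 2 ≤ s + t) : Even (s + t) := by
  by_contra hodd
  rw [Nat.not_even_iff_odd] at hodd
  have hL : Odd (s + t + 2) := by
    rcases hodd with ⟨c, hc⟩; exact ⟨c + 1, by omega⟩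
  have hge : 5 ≤ s + t + 2 := by
    rcases hodd with ⟨c, hc⟩; omega
  obtain ⟨i, j, k, l, ⟨h1, h2, h3, h4⟩, -⟩ := hG.nat hL hge (strip a b s)
    (fun i hi j hj he => h.strip_inj hi hj he) (fun i hi => h.strip_adj hi) (by
      rw [show s + t + 2 - 1 = s + t + 1 by omega, strip_gt (by omega), strip_le (by omega)]
      rw [show s + t + 1 - s - 1 = t by omega, Nat.sub_zero]
      exact h.top.symm)
  exact h.strip_nadj h1 h2 (by rwa [show s + t + 2 - 1 = s + t + 1 by omega] at h3) h4

/-- no vertex is adjacent to exactly the two ends of the strip -/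
theorem no_apex (h : Hole G a b s t) (hG : IsMeyniel G) (h2 : 2 ≤ s + t) {τ : V}
    (h3 : G.Adj τ (a s)) (h4 : G.Adj τ (b t)) (h5 : ∀ i < s, ¬ G.Adj τ (a i) ∧ τ ≠ a i)
    (h6 : ∀ j < t, ¬ G.Adj τ (b j) ∧ τ ≠ b j) : False := by
  have hev := h.even hG h2
  let g : ℕ → V := fun m => if m < s + t + 2 then strip a b s m else τ
  have g1 : ∀ m, m < s + t + 2 → g m = strip a b s m := fun m hm => if_pos hm
  have g2 : g (s + t + 2) = τ := if_neg (by omega)
  have hτne : ∀ m, m < s + t + 2 → τ ≠ strip a b s m := by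
    intro m hm
    rcases Nat.lt_or_ge s m with h1 | h1
    · rw [strip_gt h1]
      rcases Nat.lt_or_ge (m - s - 1) t with hh | hh
      · exact (h6 _ hh).2
      · have : m - s - 1 = t := by omega
        rw [this]; exact h4.ne
    · rw [strip_le h1]
      rcases Nat.lt_or_ge (s - m) s with hh | hh
      · exact (h5 _ hh).2
      · have : s - m = s := by omega
        rw [this]; exact h3.ne
  have hτadj : ∀ m, m < s + t + 2 → G.Adj τ (strip a b s m) → m = 0 ∨ m = s + t + 1 := by
    intro m hm hadj
    rcases Nat.lt_or_ge s m with h1 | h1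
    · rw [strip_gt h1] at hadj
      rcases Nat.lt_or_ge (m - s - 1) t with hh | hh
      · exact absurd hadj (h6 _ hh).1
      · right; omega
    · rw [strip_le h1] at hadj
      rcases Nat.lt_or_ge (s - m) s with hh | hh
      · exact absurd hadj (h5 _ hh).1
      · left; omega
  have hL : Odd (s + t + 3) := by
    rcases hev with ⟨c, hc⟩; exact ⟨c + 1, by omega⟩
  obtain ⟨i, j, k, l, ⟨i1, i2, i3, i4⟩, ⟨k1, k2, k3, k4⟩, hne⟩ := hG.nat hL (by omega) g (by
      intro i hi j hj he
      rcases Nat.lt_or_ge i (s + t + 2) with hi' | hi' <;>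
        rcases Nat.lt_or_ge j (s + t + 2) with hj' | hj'
      · rw [g1 i hi', g1 j hj'] at he
        exact h.strip_inj hi' hj' he
      · have : j = s + t + 2 := by omega
        rw [g1 i hi', this, g2] at he
        exact absurd he.symm (hτne i hi')
      · have : i = s + t + 2 := by omega
        rw [g1 j hj', this, g2] at he
        exact absurd he (hτne j hj')
      · omega) (by
      intro i hi
      rcases Nat.lt_or_ge (i + 1) (s + t + 2) with hi' | hi'
      · rw [g1 i (by omega), g1 (i + 1) hi']
        exact h.strip_adj hi'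
      · have : i + 1 = s + t + 2 := by omega
        rw [this, g2, g1 i (by omega), show i = s + t + 1 by omega, strip_gt (by omega),
          show s + t + 1 - s - 1 = t by omega]
        exact h4.symm) (by
      rw [show s + t + 3 - 1 = s + t + 2 by omega, g2, g1 0 (by omega), strip_le (by omega),
        Nat.sub_zero]
      exact h3)
  have only : ∀ i j, i + 1 < j → j < s + t + 3 → ¬ (i = 0 ∧ j = s + t + 3 - 1) →
      G.Adj (g i) (g j) → i = 0 ∧ j = s + t + 1 := by
    intro i j h1 h2 h3 h4
    rcases Nat.lt_or_ge j (s + t + 2) with hj' | hj'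
    · rw [g1 i (by omega), g1 j hj'] at h4
      by_contra hcon
      exact h.strip_nadj h1 hj' hcon h4
    · have e : j = s + t + 2 := by omega
      rw [e, g2, g1 i (by omega)] at h4
      rcases hτadj i (by omega) h4.symm with h5 | h5
      · exact absurd ⟨h5, by omega⟩ h3
      · omega
  have hi := only i j i1 i2 i3 i4
  have hk := only k l k1 k2 k3 k4
  exact hne ⟨by omega, by omega⟩

end Hole

variable {ι : Type*} [LinearOrder ι] {G : SimpleGraph V} {M : Set V} {r : V} {ρ : V → ι}
    {p : V → V} {d : V → ℕ}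

theorem apex_step (h : LTree G M r ρ p d) (hG : IsMeyniel G) {x y : V} (hx : x ∈ M)
    (hy : y ∈ M) {s t : ℕ} (hs : s < d x) (ht : t ≤ d y) (h2 : 2 ≤ s + t)
    (hole : Hole G (fun i => p^[i] x) (fun i => p^[i] y) s t)
    (hadj : G.Adj (p^[s + 1] x) (p^[t] y))
    (hmin : ∀ j, j < t → p^[s + 1] x ≠ p^[j] y) : False := by
  refine hole.no_apex hG h2 (τ := p^[s + 1] x) (h.iter_adj hx (by omega)).symm hadj ?_ ?_
  · intro i hi
    refine ⟨fun hc => h.iter_nadj hx (i := i) (j := s + 1) (by omega) (by omega) hc.symm, ?_⟩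
    intro hc
    have := h.iter_inj hx (i := s + 1) (j := i) (by omega) (by omega) hc
    omega
  · intro j hj
    constructor
    · intro hc
      have h1 : ρ (p^[j + 1] y) ≤ ρ (p^[s + 1] x) := h.iter_min hy (by omega) hc.symm
      have h3 : ρ (p^[t] y) ≤ ρ (p^[j + 1] y) := h.iter_le hy (by omega) ht
      have h4 : ρ (p^[s + 1] x) ≤ ρ (p^[t] y) := h.iter_min hx (by omega) hole.top
      have h5 : p^[s + 1] x = p^[t] y := h.inj (h.iter hx _ (by omega)).1 (h.iter hy _ ht).1
        (le_antisymm h4 (h3.trans h1))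
      exact hadj.ne h5
    · exact hmin j hj

theorem tri_or_odd (h : LTree G M r ρ p d) (hG : IsMeyniel G) :
    ∀ (n : ℕ) (x y : V), d x + d y = n → x ∈ M → G.Adj x y → Tri G p r x y ∨ Odd (d x + d y) := by
  intro n
  induction n using Nat.strong_induction_on with
  | _ n ih =>
  intro x y hn hx hxy
  by_contra hcon
  push Not at hcon
  obtain ⟨hnt, hno⟩ := hcon
  have hy : y ∈ M := h.closed x hx y hxy
  have hxr : x ≠ r := by
    rintro rfl
    have h1 : p y = x := h.p_eq_root hy hxy.symm
    have h2 := h.d_succ y hy hxy.ne'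
    rw [h1, h.d_root] at h2
    rw [h.d_root, h2] at hno
    exact hno ⟨0, rfl⟩
  have hyr : y ≠ r := by
    rintro rfl
    have h1 : p x = y := h.p_eq_root hx hxy
    have h2 := h.d_succ x hx hxy.ne
    rw [h1, h.d_root] at h2
    rw [h.d_root, h2] at hno
    exact hno ⟨0, rfl⟩
  have hdx : 0 < d x := by have := h.d_succ x hx hxr; omega
  have hdy : 0 < d y := by have := h.d_succ y hy hyr; omega
  have hpx : p x ≠ y := by
    intro he
    have := h.d_succ x hx hxr
    rw [he] at this
    exact hno ⟨d y, by omega⟩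
  have hpy : p y ≠ x := by
    intro he
    have := h.d_succ y hy hyr
    rw [he] at this
    exact hno ⟨d x, by omega⟩
  -- the pairs
  let P : ℕ → ℕ → Prop := fun s t => s ≤ d x ∧ t ≤ d y ∧ 0 < s + t ∧ G.Adj (p^[s] x) (p^[t] y)
  have hPex : ∃ m, ∃ s t, s + t = m ∧ P s t := by
    refine ⟨_, d x - 1, d y, rfl, by omega, le_rfl, by omega, ?_⟩
    rw [h.iter_root hy, ← h.iter_root hx]
    have := h.iter_adj hx (i := d x - 1) (by omega)
    rwa [show d x - 1 + 1 = d x by omega] at this
  classical
  obtain ⟨s, t, hst, hs, ht, hpos, hadj⟩ := Nat.find_spec hPex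
  have hmin : ∀ s' t', P s' t' → s + t ≤ s' + t' := by
    intro s' t' hP
    rw [hst]
    exact Nat.find_min' hPex ⟨s', t', rfl, hP⟩
  have h2 : 2 ≤ s + t := by
    by_contra hlt
    have h1 : s + t = 1 := by omega
    rcases Nat.lt_or_ge 0 s with h0 | h0
    · have e1 : s = 1 := by omega
      have e2 : t = 0 := by omega
      rw [e1, e2] at hadj
      exact hnt ⟨p x, Or.inl ⟨hxr, rfl⟩, (h.adj x hx hxr).symm, hadj⟩
    · have e1 : s = 0 := by omega
      have e2 : t = 1 := by omega
      rw [e1, e2] at hadj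
      exact hnt ⟨p y, Or.inr ⟨hyr, rfl⟩, hadj.symm, (h.adj y hy hyr).symm⟩
  have hne : ∀ i j, i ≤ s → j ≤ t → p^[i] x ≠ p^[j] y := by
    intro i j hi hj he
    rcases Nat.eq_zero_or_pos i with hi0 | hi0
    · subst hi0
      rcases Nat.eq_zero_or_pos j with hj0 | hj0
      · subst hj0; exact hxy.ne he
      · have h1 : G.Adj (p^[0] x) (p^[j - 1] y) := by
          rw [he]
          have := h.iter_adj hy (i := j - 1) (by omega)
          rw [show j - 1 + 1 = j by omega] at this
          exact this.symm
        rcases Nat.lt_or_ge 0 (j - 1) with h3 | h3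
        · have := hmin 0 (j - 1) ⟨by omega, by omega, by omega, h1⟩
          omega
        · have e : j = 1 := by omega
          rw [e] at he
          exact hpy he.symm
    · have h1 : G.Adj (p^[i - 1] x) (p^[j] y) := by
        rw [← he]
        have := h.iter_adj hx (i := i - 1) (by omega)
        rwa [show i - 1 + 1 = i by omega] at this
      rcases Nat.lt_or_ge 0 (i - 1 + j) with h3 | h3
      · have := hmin (i - 1) j ⟨by omega, by omega, by omega, h1⟩
        omega
      · have e1 : i = 1 := by omega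
        have e2 : j = 0 := by omega
        rw [e1, e2] at he
        exact hpx he
  have hnadj : ∀ i j, i ≤ s → j ≤ t → ¬ (i = 0 ∧ j = 0) → ¬ (i = s ∧ j = t) →
      ¬ G.Adj (p^[i] x) (p^[j] y) := by
    intro i j hi hj h0 h1 hc
    have := hmin i j ⟨by omega, by omega, by omega, hc⟩
    omega
  have hole : Hole G (fun i => p^[i] x) (fun i => p^[i] y) s t :=
    { a_adj := fun i hi => h.iter_adj hx (by omega)
      b_adj := fun i hi => h.iter_adj hy (by omega)
      a_nadj := fun i j hij hj => h.iter_nadj hx hij (by omega)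
      b_nadj := fun i j hij hj => h.iter_nadj hy hij (by omega)
      a_ne := fun i j hij hj he => by
        have := h.iter_inj hx (i := i) (j := j) (by omega) (by omega) he; omega
      b_ne := fun i j hij hj he => by
        have := h.iter_inj hy (i := i) (j := j) (by omega) (by omega) he; omega
      ab := hxy
      top := hadj
      ne := hne
      nadj := hnadj }
  have hole' : Hole G (fun i => p^[i] y) (fun i => p^[i] x) t s :=
    { a_adj := hole.b_adj
      b_adj := hole.a_adj
      a_nadj := hole.b_nadj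
      b_nadj := hole.a_nadj
      a_ne := hole.b_ne
      b_ne := hole.a_ne
      ab := hxy.symm
      top := hadj.symm
      ne := fun i j hi hj he => hne j i hj hi he.symm
      nadj := fun i j hi hj h0 h1 hc => hnadj j i hj hi (fun h => h0 ⟨h.2, h.1⟩)
        (fun h => h1 ⟨h.2, h.1⟩) hc.symm }
  have hev := hole.even hG h2
  have hx' := h.iter hx s hs
  have hy' := h.iter hy t ht
  rcases ih (d (p^[s] x) + d (p^[t] y)) (by omega) _ _ rfl hx'.1 hadj with h3 | h3
  · obtain ⟨τ, hτ, h4, h5⟩ := h3
    rcases hτ with ⟨hr, rfl⟩ | ⟨hr, rfl⟩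
    · have hlt : s < d x := by
        rcases Nat.lt_or_ge s (d x) with hh | hh
        · exact hh
        · have : s = d x := by omega
          rw [this, h.iter_root hx] at hr
          exact absurd rfl hr
      refine apex_step h hG hx hy hlt ht h2 hole ?_ ?_
      · rw [Function.iterate_succ_apply']; exact h5
      · intro j hj hc
        have h6 : G.Adj (p^[s] x) (p^[j] y) := by
          rw [← hc]; exact h.iter_adj hx (by omega)
        rcases Nat.eq_zero_or_pos (s + j) with h0 | h0
        · have e1 : s = 0 := by omega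
          have e2 : j = 0 := by omega
          rw [e1, e2] at hc
          exact hpx hc
        · have := hmin s j ⟨by omega, by omega, h0, h6⟩
          omega
    · have hlt : t < d y := by
        rcases Nat.lt_or_ge t (d y) with hh | hh
        · exact hh
        · have : t = d y := by omega
          rw [this, h.iter_root hy] at hr
          exact absurd rfl hr
      refine apex_step h hG hy hx hlt hs (by omega) hole' ?_ ?_
      · rw [Function.iterate_succ_apply']; exact h4
      · intro j hj hc
        have h6 : G.Adj (p^[j] x) (p^[t] y) := by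
          rw [← hc]; exact (h.iter_adj hy (by omega)).symm
        rcases Nat.eq_zero_or_pos (j + t) with h0 | h0
        · have e1 : t = 0 := by omega
          have e2 : j = 0 := by omega
          rw [e1, e2] at hc
          exact hpy hc
        · have := hmin j t ⟨by omega, by omega, h0, h6⟩
          omega
  · apply hno
    rcases hev with ⟨c, hc⟩
    rcases h3 with ⟨e, he⟩
    exact ⟨e + c, by omega⟩


/-- the largest parent is adjacent to the whole clique -/
theorem clique_extend (h : LTree G M r ρ p d) (hG : IsMeyniel G) [DecidableEq V] {k : ℕ}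
    (hk : 2 ≤ k) {Q : Finset V} (hQ : G.IsNClique k Q) (hQM : ∀ x ∈ Q, x ∈ M) {e : ℕ}
    (hpar : ∀ x ∈ Q, d x % 2 = e) : ¬ G.CliqueFree (k + 1) := by
  intro hfree
  have hcard : Q.card = k := hQ.card_eq
  have htri : ∀ x ∈ Q, ∀ y ∈ Q, x ≠ y → Tri G p r x y := by
    intro x hx y hy hxy
    rcases tri_or_odd h hG _ x y rfl (hQM x hx) (hQ.isClique hx hy hxy) with h1 | h1
    · exact h1
    · exfalso
      have h2 := hpar x hx
      have h3 := hpar y hy
      rcases h1 with ⟨c, hc⟩
      omega
  have hne : ∀ x ∈ Q, x ≠ r := by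
    rintro x hx rfl
    obtain ⟨y, hy, hyx⟩ : ∃ y ∈ Q, y ≠ x := by
      by_contra hcon
      push Not at hcon
      have : Q ⊆ {x} := fun y hy => Finset.mem_singleton.2 (hcon y hy)
      have := Finset.card_le_card this
      rw [Finset.card_singleton] at this
      omega
    obtain ⟨t, ht, h1, h2⟩ := htri x hx y hy (Ne.symm hyx)
    rcases ht with ⟨h3, -⟩ | ⟨-, h3⟩
    · exact h3 rfl
    · have h4 := h.p_eq_root (hQM y hy) (hQ.isClique hy hx hyx)
      rw [h3, h4] at h1
      exact G.loopless.irrefl _ h1
  have hQne : Q.Nonempty := by rw [← Finset.card_pos]; omega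
  obtain ⟨x, hx, hmax⟩ := Q.exists_max_image (fun v => ρ (p v)) hQne
  have hxM := hQM x hx
  have hxr := hne x hx
  have hall : ∀ y ∈ Q, G.Adj (p x) y := by
    intro y hy
    by_cases hxy : x = y
    · rw [← hxy]; exact (h.adj x hxM hxr).symm
    obtain ⟨t, ht, h1, h2⟩ := htri x hx y hy hxy
    rcases ht with ⟨-, rfl⟩ | ⟨-, rfl⟩
    · exact h2
    · have h3 : ρ (p x) ≤ ρ (p y) := h.min x hxM hxr _ h1.symm
      have h4 : ρ (p y) ≤ ρ (p x) := hmax y hy
      have h5 : p x = p y := h.inj (h.mem_p hxM hxr) (h.mem_p (hQM y hy) (hne y hy))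
        (le_antisymm h3 h4)
      rw [h5]; exact h2
  exact hfree _ (hQ.insert hall)

end Pool.Agent.Helper24.OCM
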