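import Pool.Agent.Helper63.OC.Step
import Pool.Agent.Helper24.OCM.Core

/-! # The on-line connected order of a growing component -/

set_option autoImplicit false

namespace Pool.Agent.Helper24.OCM

open Pool.Agent.Helper63.OC

/-- everything that is ever joined to `c` -/
def KK (G : SimpleGraph ℕ) (c : ℕ) : Set ℕ := {v | ∃ t, c ≤ t ∧ v ∈ comp (pre G t) c}

/-- the time at which `v` is joined to `c` -/
noncomputable def jt (G : SimpleGraph ℕ) (c v : ℕ) : ℕ :=
  sInf {t | c ≤ t ∧ v ∈ comp (pre G t) c}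

/-- the distance from the joining vertex to `v` at the joining time -/
noncomputable def dd (G : SimpleGraph ℕ) (c v : ℕ) : ℕ := (pre G (jt G c v)).dist v (jt G c v)

/-- the order -/
noncomputable def rho (G : SimpleGraph ℕ) (c v : ℕ) : ℕ ×ₗ (ℕ ×ₗ ℕ) :=
  toLex (jt G c v, toLex (dd G c v, v))

/-- the least neighbour -/
noncomputable def par (G : SimpleGraph ℕ) (c v : ℕ) : ℕ :=
  Classical.epsilon fun u => G.Adj v u ∧ ∀ w, G.Adj v w → rho G c u ≤ rho G c w

/-- the depth -/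
noncomputable def dep (G : SimpleGraph ℕ) (c v : ℕ) : ℕ := sInf {n | (par G c)^[n] v = c}

theorem rho_inj {G : SimpleGraph ℕ} {c u v : ℕ} (h : rho G c u = rho G c v) : u = v := by
  unfold rho at h
  have h1 := toLex.injective h
  rw [Prod.mk.injEq] at h1
  have h2 := toLex.injective h1.2
  rw [Prod.mk.injEq] at h2
  exact h2.2

theorem rho_lt_of_jt {G : SimpleGraph ℕ} {c u v : ℕ} (h : jt G c u < jt G c v) :
    rho G c u < rho G c v := by
  unfold rho
  rw [Prod.Lex.toLex_lt_toLex]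
  exact Or.inl h

theorem rho_lt_of_dd {G : SimpleGraph ℕ} {c u v : ℕ} (h : jt G c u = jt G c v)
    (h' : dd G c u < dd G c v) : rho G c u < rho G c v := by
  unfold rho
  rw [Prod.Lex.toLex_lt_toLex]
  refine Or.inr ⟨h, ?_⟩
  rw [Prod.Lex.toLex_lt_toLex]
  exact Or.inl h'

theorem jt_le_of_rho {G : SimpleGraph ℕ} {c u v : ℕ} (h : rho G c u ≤ rho G c v) :
    jt G c u ≤ jt G c v := by
  by_contra hcon
  push Not at hcon
  exact absurd h (not_le.2 (rho_lt_of_jt hcon))

theorem jt_spec {G : SimpleGraph ℕ} {c v : ℕ} (hv : v ∈ KK G c) :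
    c ≤ jt G c v ∧ v ∈ comp (pre G (jt G c v)) c :=
  Nat.sInf_mem (s := {t | c ≤ t ∧ v ∈ comp (pre G t) c}) hv

theorem jt_le {G : SimpleGraph ℕ} {c v t : ℕ} (h1 : c ≤ t) (h2 : v ∈ comp (pre G t) c) :
    jt G c v ≤ t := Nat.sInf_le ⟨h1, h2⟩

theorem le_jt {G : SimpleGraph ℕ} {c v : ℕ} (hv : v ∈ KK G c) : v ≤ jt G c v :=
  comp_le (jt_spec hv).1 (jt_spec hv).2

theorem root_mem (G : SimpleGraph ℕ) (c : ℕ) : c ∈ KK G c := ⟨c, le_rfl, self_mem_comp _ _⟩

theorem KK_closed {G : SimpleGraph ℕ} {c v u : ℕ} (hv : v ∈ KK G c) (h : G.Adj v u) :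
    u ∈ KK G c := by
  obtain ⟨t, h1, h2⟩ := hv
  have hvt : v ≤ t := comp_le h1 h2
  refine ⟨max t u, h1.trans (le_max_left _ _), ?_⟩
  have h3 : (pre G (max t u)).Reachable c v := reach_pre (le_max_left _ _) h2
  exact h3.trans (SimpleGraph.Adj.reachable
    (show (pre G (max t u)).Adj v u from ⟨hvt.trans (le_max_left _ _), le_max_right _ _, h⟩))

/-- a vertex of the component at time `t + 1` which was not there at time `t` is reachable from
`t + 1`; and `t + 1` has a neighbour in the old component -/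
theorem new_reach {G : SimpleGraph ℕ} {c v t : ℕ} (hc : c ≤ t)
    (h1 : v ∈ comp (pre G (t + 1)) c) (h2 : v ∉ comp (pre G t) c) :
    (pre G (t + 1)).Reachable v (t + 1) ∧
      ∃ x, x ∈ comp (pre G t) c ∧ (pre G (t + 1)).Adj (t + 1) x := by
  obtain ⟨x, y, hx, hy, hxy, hr⟩ := cross (U := comp (pre G t) c)
    (show (pre G (t + 1)).Reachable c v from h1) (self_mem_comp _ _) h2
  have hyt : y = t + 1 := by
    by_contra hne
    have hy1 : y ≤ t := by have := hxy.2.1; omega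
    have hx1 : x ≤ t := comp_le hc hx
    exact hy (SimpleGraph.Reachable.trans hx
      (SimpleGraph.Adj.reachable (show (pre G t).Adj x y from ⟨hx1, hy1, hxy.2.2⟩)))
  subst hyt
  refine ⟨?_, x, hx, hxy.symm⟩
  have h3 : (pre G (t + 1)).Reachable c (t + 1) := hr.trans hxy.reachable
  exact (SimpleGraph.Reachable.symm h1).trans h3

theorem jt_reach {G : SimpleGraph ℕ} {c v : ℕ} (hv : v ∈ KK G c) :
    (pre G (jt G c v)).Reachable v (jt G c v) := by
  obtain ⟨h1, h2⟩ := jt_spec hv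
  rcases Nat.lt_or_ge c (jt G c v) with h3 | h3
  · obtain ⟨t, ht⟩ : ∃ t, jt G c v = t + 1 := ⟨jt G c v - 1, by omega⟩
    rw [ht] at h2 ⊢
    refine (new_reach (by omega) h2 ?_).1
    intro hcon
    have := jt_le (by omega : c ≤ t) hcon
    omega
  · have e : jt G c v = c := by omega
    rw [e] at h2 ⊢
    exact SimpleGraph.Reachable.symm h2

theorem walk_step {H : SimpleGraph ℕ} {a b : ℕ} (hr : H.Reachable a b) (hne : a ≠ b) :
    ∃ u, H.Adj a u ∧ H.dist u b < H.dist a b := by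
  obtain ⟨w, hw⟩ := hr.exists_walk_length_eq_dist
  cases w with
  | nil => exact absurd rfl hne
  | @cons _ u _ h q =>
    rw [SimpleGraph.Walk.length_cons] at hw
    have := SimpleGraph.dist_le q
    exact ⟨u, h, by omega⟩

theorem exists_lt {G : SimpleGraph ℕ} {c v : ℕ} (hv : v ∈ KK G c) (hne : v ≠ c) :
    ∃ u, G.Adj v u ∧ rho G c u < rho G c v := by
  obtain ⟨h1, h2⟩ := jt_spec hv
  have hr := jt_reach hv
  by_cases hvj : v = jt G c v
  · -- `v` itself arrives at its joining time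
    have hcv : c < v := by omega
    obtain ⟨t, ht⟩ : ∃ t, v = t + 1 := ⟨v - 1, by omega⟩
    have h3 : v ∉ comp (pre G t) c := by
      intro hcon
      have := comp_le (by omega : c ≤ t) hcon
      omega
    have h4 : v ∈ comp (pre G (t + 1)) c := by rw [← ht]; rwa [← hvj] at h2
    obtain ⟨-, x, hx, hadj⟩ := new_reach (by omega) h4 h3
    rw [← ht] at hadj
    refine ⟨x, hadj.2.2, rho_lt_of_jt ?_⟩
    have := jt_le (by omega : c ≤ t) hx
    omega
  · obtain ⟨u, h, hd⟩ := walk_step hr hvj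
    have hu2 : u ∈ comp (pre G (jt G c v)) c :=
      SimpleGraph.Reachable.trans h2 h.reachable
    have hju : jt G c u ≤ jt G c v := jt_le h1 hu2
    refine ⟨u, h.2.2, ?_⟩
    rcases Nat.lt_or_ge (jt G c u) (jt G c v) with h3 | h3
    · exact rho_lt_of_jt h3
    · have e : jt G c u = jt G c v := by omega
      refine rho_lt_of_dd e ?_
      unfold dd
      rw [e]
      exact hd

theorem par_spec {G : SimpleGraph ℕ} {c v : ℕ} (hv : v ∈ KK G c) (hne : v ≠ c) :
    G.Adj v (par G c v) ∧ (∀ w, G.Adj v w → rho G c (par G c v) ≤ rho G c w) ∧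
      rho G c (par G c v) < rho G c v := by
  obtain ⟨u, hu, hlt⟩ := exists_lt hv hne
  have hex : ∃ u, G.Adj v u ∧ ∀ w, G.Adj v w → rho G c u ≤ rho G c w := by
    obtain ⟨m, hm, hmin⟩ := (InvImage.wf (rho G c)
      (wellFounded_lt (α := ℕ ×ₗ (ℕ ×ₗ ℕ)))).has_min {u | G.Adj v u} ⟨u, hu⟩
    exact ⟨m, hm, fun w hw => not_lt.1 (hmin w hw)⟩
  have h := Classical.epsilon_spec hex
  exact ⟨h.1, h.2, lt_of_le_of_lt (h.2 u hu) hlt⟩

theorem sInf_iter {f : ℕ → ℕ} {c v : ℕ} (hne : v ≠ c) (hex : ∃ n, f^[n] v = c) :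
    sInf {n | f^[n] v = c} = sInf {n | f^[n] (f v) = c} + 1 := by
  have h1 : f^[sInf {n | f^[n] v = c}] v = c := Nat.sInf_mem (s := {n | f^[n] v = c}) hex
  have h0 : sInf {n | f^[n] v = c} ≠ 0 := by
    intro h
    rw [h] at h1
    exact hne h1
  obtain ⟨m, hm⟩ : ∃ m, sInf {n | f^[n] v = c} = m + 1 := ⟨sInf {n | f^[n] v = c} - 1, by omega⟩
  rw [hm] at h1
  have h2 : f^[m] (f v) = c := by rwa [Function.iterate_succ_apply] at h1
  have h3 : sInf {n | f^[n] (f v) = c} ≤ m := Nat.sInf_le h2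
  have h4 : f^[sInf {n | f^[n] (f v) = c}] (f v) = c :=
    Nat.sInf_mem (s := {n | f^[n] (f v) = c}) ⟨m, h2⟩
  have h5 : sInf {n | f^[n] v = c} ≤ sInf {n | f^[n] (f v) = c} + 1 := by
    apply Nat.sInf_le
    show f^[_ + 1] v = c
    rw [Function.iterate_succ_apply]; exact h4
  omega

theorem reach_root {G : SimpleGraph ℕ} {c : ℕ} : ∀ v ∈ KK G c, ∃ n, (par G c)^[n] v = c := by
  intro v
  induction v using (InvImage.wf (rho G c) (wellFounded_lt (α := ℕ ×ₗ (ℕ ×ₗ ℕ)))).induction with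
  | _ v ih =>
  intro hv
  by_cases hne : v = c
  · exact ⟨0, hne⟩
  · obtain ⟨h1, -, h3⟩ := par_spec hv hne
    obtain ⟨n, hn⟩ := ih _ h3 (KK_closed hv h1)
    exact ⟨n + 1, by rw [Function.iterate_succ_apply]; exact hn⟩

theorem dep_root (G : SimpleGraph ℕ) (c : ℕ) : dep G c c = 0 := by
  unfold dep
  exact Nat.sInf_eq_zero.2 (Or.inl rfl)

theorem dep_succ {G : SimpleGraph ℕ} {c v : ℕ} (hv : v ∈ KK G c) (hne : v ≠ c) :
    dep G c v = dep G c (par G c v) + 1 := sInf_iter hne (reach_root v hv)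

theorem ltree (G : SimpleGraph ℕ) (c : ℕ) : LTree G (KK G c) c (rho G c) (par G c) (dep G c) where
  inj := fun _ _ _ _ h => rho_inj h
  closed := fun _ hv _ h => KK_closed hv h
  adj := fun _ hv hne => (par_spec hv hne).1
  lt := fun _ hv hne => (par_spec hv hne).2.2
  min := fun _ hv hne => (par_spec hv hne).2.1
  root := root_mem G c
  d_root := dep_root G c
  d_succ := fun _ hv hne => dep_succ hv hne

/-! ### locality -/

theorem mem_KK_pre {G : SimpleGraph ℕ} {c x v : ℕ} (hc : c ≤ x) (hv : v ∈ comp (pre G x) c) :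
    v ∈ KK G c ∧ v ∈ KK (pre G x) c :=
  ⟨⟨x, hc, hv⟩, ⟨x, hc, by rwa [pre_pre le_rfl]⟩⟩

theorem jt_pre {G : SimpleGraph ℕ} {c x v : ℕ} (hc : c ≤ x) (hv : v ∈ comp (pre G x) c) :
    jt (pre G x) c v = jt G c v := by
  obtain ⟨h1, h2⟩ := mem_KK_pre hc hv
  have h3 : jt G c v ≤ x := jt_le hc hv
  have h4 : jt (pre G x) c v ≤ jt G c v := by
    refine jt_le (jt_spec h1).1 ?_
    rw [pre_pre h3]
    exact (jt_spec h1).2
  have h5 : jt G c v ≤ jt (pre G x) c v := by
    refine jt_le (jt_spec h2).1 ?_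
    have := (jt_spec h2).2
    rwa [pre_pre (h4.trans h3)] at this
  omega

theorem rho_pre {G : SimpleGraph ℕ} {c x v : ℕ} (hc : c ≤ x) (hv : v ∈ comp (pre G x) c) :
    rho (pre G x) c v = rho G c v := by
  unfold rho dd
  rw [jt_pre hc hv, pre_pre (jt_le hc hv)]

theorem par_pre {G : SimpleGraph ℕ} {c x v : ℕ} (hc : c ≤ x) (hv : v ∈ comp (pre G x) c)
    (hne : v ≠ c) : par (pre G x) c v = par G c v ∧ par G c v ∈ comp (pre G x) c := by
  obtain ⟨h1, h2⟩ := mem_KK_pre hc hv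
  obtain ⟨a1, a2, a3⟩ := par_spec h1 hne
  obtain ⟨b1, b2, b3⟩ := par_spec h2 hne
  have hvx : v ≤ x := comp_le hc hv
  have hpx : par G c v ≤ x :=
    (le_jt (KK_closed h1 a1)).trans ((jt_le_of_rho a3.le).trans (jt_le hc hv))
  have hadj : (pre G x).Adj v (par G c v) := ⟨hvx, hpx, a1⟩
  have hmem : par G c v ∈ comp (pre G x) c := SimpleGraph.Reachable.trans hv hadj.reachable
  have hmem' : par (pre G x) c v ∈ comp (pre G x) c :=
    SimpleGraph.Reachable.trans hv b1.reachable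
  refine ⟨?_, hmem⟩
  have h3 := b2 _ hadj
  rw [rho_pre hc hmem', rho_pre hc hmem] at h3
  exact rho_inj (le_antisymm h3 (a2 _ b1.2.2))

theorem dep_pre {G : SimpleGraph ℕ} {c x : ℕ} (hc : c ≤ x) :
    ∀ (n v : ℕ), v ∈ comp (pre G x) c → dep G c v = n → dep (pre G x) c v = n
  | 0, v, hv, h => by
    have : v = c := (ltree G c).eq_root (mem_KK_pre hc hv).1 h
    rw [this, dep_root]
  | (n + 1), v, hv, h => by
    have hne : v ≠ c := by
      rintro rfl
      rw [dep_root] at h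
      omega
    obtain ⟨h1, h2⟩ := par_pre hc hv hne
    rw [dep_succ (mem_KK_pre hc hv).1 hne] at h
    rw [dep_succ (mem_KK_pre hc hv).2 hne, h1, dep_pre hc n _ h2 (by omega)]

end Pool.Agent.Helper24.OCM
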