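import Pool.Agent.Helper63.OC.Full
import Pool.Agent.Helper24.OCM.Order

/-! # The on-line algorithm for Meyniel graphs -/

set_option autoImplicit false

namespace Pool.Agent.Helper24.OCM

open Pool.Agent.Helper63.OC

/-- the anchor: the first vertex of the component which completes a component of size `≥ 2 ^ lv` -/
noncomputable def ac (s : ℕ) (H : SimpleGraph ℕ) : ℕ :=
  sInf {t | t ∈ comp H s ∧ 2 ^ lv s H ≤ (comp (pre H t) t).ncard}

/-- the label of `s` -/
noncomputable def lbl (G : SimpleGraph ℕ) (s : ℕ) : ℕ × ℕ :=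
  (lv s (pre G s), dep (pre G s) (ac s (pre G s)) s % 2)

theorem ncard_ne (G : SimpleGraph ℕ) (t : ℕ) : (comp (pre G t) t).ncard ≠ 0 := by
  rw [Ne, Set.ncard_eq_zero (comp_fin le_rfl)]
  exact Set.Nonempty.ne_empty ⟨t, self_mem_comp _ _⟩

theorem ac_spec (G : SimpleGraph ℕ) (s : ℕ) :
    ac s (pre G s) ∈ comp (pre G s) s ∧ ac s (pre G s) ≤ s ∧
      2 ^ lv s (pre G s) ≤ (comp (pre G (ac s (pre G s))) (ac s (pre G s))).ncard := by
  have h : ac s (pre G s) ∈ {t | t ∈ comp (pre G s) s ∧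
      2 ^ lv s (pre G s) ≤ (comp (pre (pre G s) t) t).ncard} := by
    apply Nat.sInf_mem
    refine ⟨s, self_mem_comp _ _, ?_⟩
    rw [pre_pre le_rfl]
    exact Nat.pow_log_le_self 2 (ncard_ne G s)
  have h1 : ac s (pre G s) ≤ s := comp_le le_rfl h.1
  refine ⟨h.1, h1, ?_⟩
  have h2 := h.2
  rwa [pre_pre h1] at h2

theorem ac_le {G : SimpleGraph ℕ} {s t : ℕ} (h1 : t ∈ comp (pre G s) s) (ht : t ≤ s)
    (h2 : 2 ^ lv s (pre G s) ≤ (comp (pre G t) t).ncard) : ac s (pre G s) ≤ t := by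
  apply Nat.sInf_le
  refine ⟨h1, ?_⟩
  rwa [pre_pre ht]

/-- the anchor persists as long as the level does not change -/
theorem ac_eq {G : SimpleGraph ℕ} {u v : ℕ} (huv : u < v) (hadj : G.Adj u v)
    (hlv : lv u (pre G u) = lv v (pre G v)) : ac u (pre G u) = ac v (pre G v) := by
  have hMv : comp (pre G v) u = comp (pre G v) v :=
    comp_eq (SimpleGraph.Adj.reachable (show (pre G v).Adj v u from ⟨le_rfl, huv.le, hadj.symm⟩))
  have hsub : comp (pre G u) u ⊆ comp (pre G v) v := by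
    rw [← hMv]; exact comp_sub huv.le
  obtain ⟨u1, u2, u3⟩ := ac_spec G u
  obtain ⟨v1, v2, v3⟩ := ac_spec G v
  have h1 : ac v (pre G v) ≤ ac u (pre G u) :=
    ac_le (hsub u1) (by omega) (by rw [← hlv]; exact u3)
  refine le_antisymm ?_ h1
  set c := ac v (pre G v) with hc
  have hcu : c ≤ u := h1.trans u2
  have hmem : c ∈ comp (pre G u) u := by
    by_contra hcon
    have hA : comp (pre G c) c ⊆ comp (pre G u) c := comp_sub hcu
    have hB : comp (pre G u) c ⊆ comp (pre G v) v := by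
      have : comp (pre G v) c = comp (pre G v) v := comp_eq v1
      rw [← this]; exact comp_sub huv.le
    have hdisj : Disjoint (comp (pre G u) u) (comp (pre G u) c) := by
      rw [Set.disjoint_left]
      intro x hx hx'
      exact hcon (SimpleGraph.Reachable.trans hx (SimpleGraph.Reachable.symm hx'))
    have hfu : (comp (pre G u) u).Finite := comp_fin le_rfl
    have hfz : (comp (pre G u) c).Finite := comp_fin hcu
    have hfv : (comp (pre G v) v).Finite := comp_fin le_rfl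
    have h4 := Set.ncard_union_eq hdisj hfu hfz
    have h5 : (comp (pre G u) u ∪ comp (pre G u) c).ncard ≤ (comp (pre G v) v).ncard :=
      Set.ncard_le_ncard (Set.union_subset hsub hB) hfv
    have h6 : 2 ^ lv v (pre G v) ≤ (comp (pre G u) c).ncard :=
      v3.trans (Set.ncard_le_ncard hA hfz)
    have h7 : 2 ^ lv v (pre G v) ≤ (comp (pre G u) u).ncard := by
      rw [← hlv]; exact Nat.pow_log_le_self 2 (ncard_ne G u)
    have h8 : (comp (pre G v) v).ncard < 2 ^ (lv v (pre G v) + 1) :=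
      Nat.lt_pow_succ_log_self (by norm_num) _
    rw [pow_succ] at h8
    omega
  exact ac_le hmem hcu (by rw [hlv]; exact v3)

/-- The step: no monochromatic `k`-clique. -/
theorem step_free {G : SimpleGraph ℕ} (hM : IsMeyniel G) {k : ℕ} (hk : 2 ≤ k)
    (hG : G.CliqueFree (k + 1)) : (mono G (lbl G)).CliqueFree k := by
  intro Q hQ
  have hQne : Q.Nonempty := by
    rw [← Finset.card_pos, hQ.card_eq]; omega
  obtain ⟨v, hvQ, hvmax⟩ : ∃ v ∈ Q, ∀ u ∈ Q, u ≤ v :=
    ⟨Q.max' hQne, Q.max'_mem hQne, fun u hu => Q.le_max' u hu⟩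
  have hcol : ∀ u ∈ Q, lbl G u = lbl G v := by
    intro u hu
    by_cases h : u = v
    · rw [h]
    · exact (hQ.isClique hu hvQ h).2
  set c := ac v (pre G v) with hc
  have hac : ∀ u ∈ Q, ac u (pre G u) = c := by
    intro u hu
    by_cases h : u = v
    · rw [h]
    · exact ac_eq (lt_of_le_of_ne (hvmax u hu) h) (hQ.isClique hu hvQ h).1
        (congrArg Prod.fst (hcol u hu))
  have hmem : ∀ u ∈ Q, c ≤ u ∧ u ∈ comp (pre G u) c := by
    intro u hu
    obtain ⟨h1, h2, -⟩ := ac_spec G u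
    rw [hac u hu] at h1 h2
    exact ⟨h2, SimpleGraph.Reachable.symm h1⟩
  have hQG : G.IsNClique k Q :=
    ⟨fun a ha b hb hab => (hQ.isClique ha hb hab).1, hQ.card_eq⟩
  refine clique_extend (ltree G c) hM hk hQG (fun x hx => (mem_KK_pre (hmem x hx).1
    (hmem x hx).2).1) (e := dep (pre G v) c v % 2) ?_ hG
  intro x hx
  have h1 : dep (pre G x) (ac x (pre G x)) x % 2 = dep (pre G v) (ac v (pre G v)) v % 2 :=
    congrArg Prod.snd (hcol x hx)
  rw [hac x hx, ← hc] at h1
  rw [← h1, dep_pre (hmem x hx).1 (dep G c x) x (hmem x hx).2 rfl]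

theorem IsMeyniel.mono {α : Type*} {G : SimpleGraph ℕ} (hG : IsMeyniel G) (c : ℕ → α) :
    IsMeyniel (mono G c) := by
  intro L hL h5 f hf hadj
  obtain ⟨i, j, k, l, ⟨h1, h2, h3⟩, ⟨h4, h5, h6⟩, h7⟩ := hG L hL h5 f hf (fun i => (hadj i).1)
  have hnat : ∀ n : ℕ, c (f (n : ZMod L)) = c (f 0) := by
    intro n
    induction n with
    | zero => simp
    | succ n ih =>
      have := (hadj (n : ZMod L)).2
      push_cast
      rw [← this, ih]
  have : NeZero L := ⟨by rintro rfl; exact absurd hL (by decide)⟩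
  have hall : ∀ i : ZMod L, c (f i) = c (f 0) := by
    intro i
    have := hnat i.val
    rwa [ZMod.natCast_zmod_val] at this
  exact ⟨i, j, k, l, ⟨⟨h1, by rw [hall i, hall j]⟩, h2, h3⟩,
    ⟨⟨h4, by rw [hall k, hall l]⟩, h5, h6⟩, h7⟩

/-- the whole colour of `s` -/
noncomputable def fcol : ℕ → SimpleGraph ℕ → ℕ → List (ℕ × ℕ)
  | 0, _, _ => []
  | 1, _, _ => []
  | (k + 2), G, s => lbl G s :: fcol (k + 1) (mono G (lbl G)) s

theorem fcol_proper : ∀ (k : ℕ) (G : SimpleGraph ℕ), IsMeyniel G →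
    G.CliqueFree (k + 1) → ∀ a b, G.Adj a b → fcol k G a ≠ fcol k G b
  | 0, G, _, hG, a, b, _ => by
    exfalso
    exact hG {a} ⟨by simp, by simp⟩
  | 1, G, _, hG, a, b, hab => by
    exfalso
    refine hG {a, b} ⟨?_, ?_⟩
    · intro x hx y hy hxy
      simp only [Finset.coe_insert, Finset.coe_singleton, Set.mem_insert_iff,
        Set.mem_singleton_iff] at hx hy
      rcases hx with rfl | rfl <;> rcases hy with rfl | rfl
      · exact absurd rfl hxy
      · exact hab
      · exact hab.symm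
      · exact absurd rfl hxy
    · exact Finset.card_pair hab.ne
  | (k + 2), G, hM, hG, a, b, hab => by
    intro heq
    rw [fcol, fcol, List.cons.injEq] at heq
    exact fcol_proper (k + 1) _ (hM.mono _) (step_free hM (by omega) hG) a b
      ⟨hab, heq.1⟩ heq.2

theorem lbl_pre {G : SimpleGraph ℕ} {s t : ℕ} (h : t ≤ s) : lbl (pre G s) t = lbl G t := by
  unfold lbl
  rw [pre_pre h]

theorem mono_pre' {s : ℕ} (G : SimpleGraph ℕ) :
    mono (pre G s) (lbl (pre G s)) = pre (mono G (lbl G)) s := by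
  ext a b
  show (a ≤ s ∧ b ≤ s ∧ G.Adj a b) ∧ lbl (pre G s) a = lbl (pre G s) b ↔
    a ≤ s ∧ b ≤ s ∧ (G.Adj a b ∧ lbl G a = lbl G b)
  constructor
  · rintro ⟨⟨h1, h2, h3⟩, h4⟩
    rw [lbl_pre h1, lbl_pre h2] at h4
    exact ⟨h1, h2, h3, h4⟩
  · rintro ⟨h1, h2, h3, h4⟩
    refine ⟨⟨h1, h2, h3⟩, ?_⟩
    rw [lbl_pre h1, lbl_pre h2]
    exact h4

theorem fcol_pre : ∀ (k : ℕ) (G : SimpleGraph ℕ) (s t : ℕ), t ≤ s →
    fcol k (pre G s) t = fcol k G t
  | 0, _, _, _, _ => rfl
  | 1, _, _, _, _ => rfl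
  | (k + 2), G, s, t, h => by
    rw [fcol, fcol, mono_pre', fcol_pre (k + 1) _ s t h, lbl_pre h]

/-- the possible labels -/
def T2 (n : ℕ) : Finset (ℕ × ℕ) := Finset.range (Nat.log 2 n + 1) ×ˢ Finset.range 2

theorem card_T2 (n : ℕ) : (T2 n).card = 2 * (Nat.log 2 n + 1) := by
  unfold T2
  simp only [Finset.card_product, Finset.card_range]
  ring

theorem lbl_mem {G : SimpleGraph ℕ} {n s : ℕ} (hs : s < n) : lbl G s ∈ T2 n := by
  have hlv := lv_le (G := G) hs
  unfold lbl T2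
  simp only [Finset.mem_product, Finset.mem_range]
  exact ⟨by omega, Nat.mod_lt _ (by norm_num)⟩

/-- the possible colours -/
def F2 (n : ℕ) : ℕ → Finset (List (ℕ × ℕ))
  | 0 => {[]}
  | (m + 1) => (T2 n ×ˢ F2 n m).image fun p => p.1 :: p.2

theorem card_F2 (n m : ℕ) : (F2 n m).card ≤ (T2 n).card ^ m := by
  induction m with
  | zero => simp [F2]
  | succ m ih =>
    rw [F2]
    refine le_trans Finset.card_image_le ?_
    rw [Finset.card_product, pow_succ, mul_comm]
    exact Nat.mul_le_mul_right _ ih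

theorem fcol_mem (n s : ℕ) (hs : s < n) : ∀ (k : ℕ) (G : SimpleGraph ℕ),
      fcol k G s ∈ F2 n (k - 1)
  | 0, _ => by simp [fcol, F2]
  | 1, _ => by simp [fcol, F2]
  | (k + 2), G => by
    rw [fcol]
    show _ ∈ F2 n (k + 1)
    rw [F2, Finset.mem_image]
    refine ⟨(_, _), ?_, rfl⟩
    rw [Finset.mem_product]
    exact ⟨lbl_mem hs, fcol_mem n s hs (k + 1) _⟩

theorem liftG_meyniel {n : ℕ} {G : SimpleGraph (Fin n)} (hG : IsMeyniel G) :
    IsMeyniel (liftG G) := by
  intro L hL h5 f hf hadj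
  have hlt : ∀ i, f i < n := fun i => (hadj i).1
  obtain ⟨i, j, k, l, ⟨h1, h2, h3⟩, ⟨h4, h5, h6⟩, h7⟩ := hG L hL h5 (fun i => ⟨f i, hlt i⟩)
    (fun i j h => hf (by rw [Fin.mk.injEq] at h; exact h)) (fun i => (hadj i).2.2)
  exact ⟨i, j, k, l, ⟨⟨hlt i, hlt j, h1⟩, h2, h3⟩, ⟨⟨hlt k, hlt l, h4⟩, h5, h6⟩, h7⟩

/-- the on-line algorithm for `k`-colourable Meyniel graphs -/
noncomputable def alg2 (k : ℕ) (m : ℕ) (H : SimpleGraph (Fin m)) : ℕ :=
  Encodable.encode (fcol k (liftG H) (m - 1))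

theorem alg2_eq {n k : ℕ} (G : SimpleGraph (Fin n)) (i : Fin n) :
    alg2 k (i.val + 1) (SimpleGraph.comap (Fin.castLE (Nat.succ_le_of_lt i.isLt)) G) =
      Encodable.encode (fcol k (liftG G) i.val) := by
  unfold alg2
  rw [liftG_comap G i.val i.isLt]
  congr 1
  exact fcol_pre k _ _ _ le_rfl

theorem log_bound2 {n : ℕ} (hn : 2 ≤ n) :
    ((2 * (Nat.log 2 n + 1) : ℕ) : ℝ) ≤ 6 * Real.log n := by
  have h1 : (Nat.log 2 n : ℝ) ≤ Real.logb (2 : ℕ) n := Real.natLog_le_logb _ _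
  have h2 : Real.logb (2 : ℕ) n = Real.log n / Real.log 2 := by
    unfold Real.logb; norm_num
  have h3 : (0.6931471803 : ℝ) < Real.log 2 := Real.log_two_gt_d9
  have h4 : Real.log 2 ≤ Real.log n := Real.log_le_log (by norm_num) (by exact_mod_cast hn)
  rw [h2] at h1
  push_cast
  have h5 : Real.log n / Real.log 2 + 1 ≤ 3 * Real.log n := by
    have h6 : Real.log n / Real.log 2 + 1 = (Real.log n + Real.log 2) / Real.log 2 := by
      field_simp
    rw [h6, div_le_iff₀ (by linarith)]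
    nlinarith
  linarith

theorem main2 {k : ℕ} (hk : 1 ≤ k) {n : ℕ} (hn : 2 ≤ n) (G : SimpleGraph (Fin n))
    (hG : G.Colorable k) (hM : IsMeyniel G) :
    (∀ i j : Fin n, G.Adj i j →
      alg2 k (i.val + 1) (SimpleGraph.comap (Fin.castLE (Nat.succ_le_of_lt i.isLt)) G) ≠
      alg2 k (j.val + 1) (SimpleGraph.comap (Fin.castLE (Nat.succ_le_of_lt j.isLt)) G)) ∧
    (((Finset.univ.image (fun i : Fin n =>
      alg2 k (i.val + 1) (SimpleGraph.comap (Fin.castLE (Nat.succ_le_of_lt i.isLt)) G))).card : ℝ)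
      ≤ (6 * Real.log (n : ℝ)) ^ (k - 1)) := by
  have hfree := liftG_free G hk hG
  have hM' := liftG_meyniel hM
  constructor
  · intro i j hij
    rw [alg2_eq, alg2_eq]
    intro h
    have h' := Encodable.encode_injective h
    exact fcol_proper k _ hM' hfree i.val j.val ⟨i.isLt, j.isLt, hij⟩ h'
  · have hsub : (Finset.univ.image (fun i : Fin n =>
        alg2 k (i.val + 1) (SimpleGraph.comap (Fin.castLE (Nat.succ_le_of_lt i.isLt)) G))) ⊆
        (F2 n (k - 1)).image Encodable.encode := by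
      intro x hx
      rw [Finset.mem_image] at hx
      obtain ⟨i, -, rfl⟩ := hx
      rw [alg2_eq]
      exact Finset.mem_image_of_mem _ (fcol_mem n i.val i.isLt k _)
    have h4 : (Finset.univ.image (fun i : Fin n =>
        alg2 k (i.val + 1) (SimpleGraph.comap (Fin.castLE (Nat.succ_le_of_lt i.isLt)) G))).card ≤
        (2 * (Nat.log 2 n + 1)) ^ (k - 1) := by
      refine (Finset.card_le_card hsub).trans (Finset.card_image_le.trans ?_)
      rw [← card_T2]
      exact card_F2 n (k - 1)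
    have h5 : ((Finset.univ.image (fun i : Fin n =>
        alg2 k (i.val + 1) (SimpleGraph.comap (Fin.castLE (Nat.succ_le_of_lt i.isLt)) G))).card : ℝ)
        ≤ ((2 * (Nat.log 2 n + 1) : ℕ) : ℝ) ^ (k - 1) := by
      exact_mod_cast h4
    refine h5.trans ?_
    apply pow_le_pow_left₀ (by positivity)
    exact log_bound2 hn

end Pool.Agent.Helper24.OCM
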