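import Mathlib

/-! # Meyniel graphs and least-neighbour trees -/

set_option autoImplicit false

namespace Pool.Agent.Helper24.OCM

variable {V : Type*}

/-- `f i` and `f j` are adjacent, but not consecutive on the closed sequence `f` -/
def IsChord (G : SimpleGraph V) {L : ℕ} (f : ZMod L → V) (i j : ZMod L) : Prop :=
  G.Adj (f i) (f j) ∧ j ≠ i + 1 ∧ i ≠ j + 1

/-- every cycle of odd length at least `5` has at least two chords -/
def IsMeyniel (G : SimpleGraph V) : Prop :=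
  ∀ L : ℕ, Odd L → 5 ≤ L → ∀ f : ZMod L → V, Function.Injective f →
    (∀ i, G.Adj (f i) (f (i + 1))) →
    ∃ i j k l : ZMod L, IsChord G f i j ∧ IsChord G f k l ∧ s(i, j) ≠ s(k, l)

theorem IsMeyniel.nat {G : SimpleGraph V} (hG : IsMeyniel G) {L : ℕ} (hodd : Odd L)
    (h5 : 5 ≤ L) (g : ℕ → V) (hinj : ∀ i < L, ∀ j < L, g i = g j → i = j)
    (hadj : ∀ i, i + 1 < L → G.Adj (g i) (g (i + 1))) (hcl : G.Adj (g (L - 1)) (g 0)) :
    ∃ i j k l : ℕ, (i + 1 < j ∧ j < L ∧ ¬ (i = 0 ∧ j = L - 1) ∧ G.Adj (g i) (g j)) ∧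
      (k + 1 < l ∧ l < L ∧ ¬ (k = 0 ∧ l = L - 1) ∧ G.Adj (g k) (g l)) ∧ ¬ (i = k ∧ j = l) := by
  have : NeZero L := ⟨by omega⟩
  have : Fact (1 < L) := ⟨by omega⟩
  have hone : (1 : ZMod L).val = 1 := ZMod.val_one L
  have hsucc : ∀ i : ZMod L, (i + 1).val = (i.val + 1) % L := by
    intro i; rw [ZMod.val_add, hone]
  have hlt : ∀ i : ZMod L, i.val < L := fun i => ZMod.val_lt i
  obtain ⟨i, j, k, l, ⟨h1, h2, h3⟩, ⟨h4, h5', h6⟩, h7⟩ := hG L hodd h5 (fun i => g i.val)
    (fun i j hij => ZMod.val_injective L (hinj _ (hlt i) _ (hlt j) hij)) (by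
      intro i
      show G.Adj (g i.val) (g (i + 1).val)
      rw [hsucc]
      have := hlt i
      by_cases h : i.val + 1 < L
      · rw [Nat.mod_eq_of_lt h]; exact hadj _ h
      · have e : i.val = L - 1 := by omega
        rw [e, Nat.sub_add_cancel (by omega), Nat.mod_self]
        exact hcl)
  -- normal form of a chord
  have key : ∀ i j : ZMod L, G.Adj (g i.val) (g j.val) → j ≠ i + 1 → i ≠ j + 1 →
      i.val < j.val → (i.val + 1 < j.val ∧ j.val < L ∧ ¬ (i.val = 0 ∧ j.val = L - 1) ∧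
        G.Adj (g i.val) (g j.val)) := by
    intro i j h1 h2 h3 hij
    have hi := hlt i
    have hj := hlt j
    refine ⟨?_, hj, ?_, h1⟩
    · rcases Nat.lt_or_ge (i.val + 1) j.val with h | h
      · exact h
      · exfalso
        apply h2
        apply ZMod.val_injective L
        rw [hsucc, Nat.mod_eq_of_lt (by omega)]
        omega
    · rintro ⟨e1, e2⟩
      apply h3
      apply ZMod.val_injective L
      rw [hsucc, e2, Nat.sub_add_cancel (by omega), Nat.mod_self, e1]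
  have key2 : ∀ i j : ZMod L, G.Adj (g i.val) (g j.val) → j ≠ i + 1 → i ≠ j + 1 →
      (min i.val j.val + 1 < max i.val j.val ∧ max i.val j.val < L ∧
        ¬ (min i.val j.val = 0 ∧ max i.val j.val = L - 1) ∧
        G.Adj (g (min i.val j.val)) (g (max i.val j.val))) := by
    intro i j h1 h2 h3
    have hne : i.val ≠ j.val := fun h => h1.ne (by rw [h])
    rcases Nat.lt_or_ge i.val j.val with h | h
    · rw [min_eq_left h.le, max_eq_right h.le]
      exact key i j h1 h2 h3 h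
    · rw [min_eq_right h, max_eq_left h]
      exact key j i h1.symm h3 h2 (by omega)
  refine ⟨_, _, _, _, key2 i j h1 h2 h3, key2 k l h4 h5' h6, ?_⟩
  rintro ⟨e1, e2⟩
  apply h7
  rw [Sym2.eq_iff]
  have hinjv : ∀ a b : ZMod L, a.val = b.val → a = b := fun a b h => ZMod.val_injective L h
  rcases Nat.lt_or_ge i.val j.val with h | h <;> rcases Nat.lt_or_ge k.val l.val with h' | h'
  · rw [min_eq_left h.le, min_eq_left h'.le] at e1
    rw [max_eq_right h.le, max_eq_right h'.le] at e2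
    exact Or.inl ⟨hinjv _ _ e1, hinjv _ _ e2⟩
  · rw [min_eq_left h.le, min_eq_right h'] at e1
    rw [max_eq_right h.le, max_eq_left h'] at e2
    exact Or.inr ⟨hinjv _ _ e1, hinjv _ _ e2⟩
  · rw [min_eq_right h, min_eq_left h'.le] at e1
    rw [max_eq_left h, max_eq_right h'.le] at e2
    exact Or.inr ⟨hinjv _ _ e2, hinjv _ _ e1⟩
  · rw [min_eq_right h, min_eq_right h'] at e1
    rw [max_eq_left h, max_eq_left h'] at e2
    exact Or.inl ⟨hinjv _ _ e2, hinjv _ _ e1⟩

/-- least-neighbour tree on `M` with root `r`, order function `ρ`, parent `p`, depth `d` -/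
structure LTree {ι : Type*} [LinearOrder ι] (G : SimpleGraph V) (M : Set V) (r : V) (ρ : V → ι)
    (p : V → V) (d : V → ℕ) : Prop where
  inj : Set.InjOn ρ M
  closed : ∀ v ∈ M, ∀ u, G.Adj v u → u ∈ M
  adj : ∀ v ∈ M, v ≠ r → G.Adj v (p v)
  lt : ∀ v ∈ M, v ≠ r → ρ (p v) < ρ v
  min : ∀ v ∈ M, v ≠ r → ∀ u, G.Adj v u → ρ (p v) ≤ ρ u
  root : r ∈ M
  d_root : d r = 0
  d_succ : ∀ v ∈ M, v ≠ r → d v = d (p v) + 1

/-- some parent is adjacent to both `x` and `y` -/
def Tri (G : SimpleGraph V) (p : V → V) (r x y : V) : Prop :=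
  ∃ t, ((x ≠ r ∧ t = p x) ∨ (y ≠ r ∧ t = p y)) ∧ G.Adj t x ∧ G.Adj t y

namespace LTree

variable {ι : Type*} [LinearOrder ι] {G : SimpleGraph V} {M : Set V} {r : V} {ρ : V → ι}
    {p : V → V} {d : V → ℕ}

theorem mem_p (h : LTree G M r ρ p d) {v : V} (hv : v ∈ M) (hr : v ≠ r) : p v ∈ M :=
  h.closed v hv _ (h.adj v hv hr)

theorem ne_root (h : LTree G M r ρ p d) {v : V} (hd : 0 < d v) : v ≠ r := by
  rintro rfl
  rw [h.d_root] at hd
  omega

/-- iterates of the parent map -/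
theorem iter (h : LTree G M r ρ p d) {x : V} (hx : x ∈ M) :
    ∀ i, i ≤ d x → p^[i] x ∈ M ∧ d (p^[i] x) + i = d x
  | 0, _ => ⟨hx, rfl⟩
  | (i + 1), hi => by
    obtain ⟨h1, h2⟩ := iter h hx i (by omega)
    have h3 : p^[i] x ≠ r := h.ne_root (by omega)
    rw [Function.iterate_succ_apply']
    refine ⟨h.mem_p h1 h3, ?_⟩
    have := h.d_succ _ h1 h3
    omega

theorem iter_ne (h : LTree G M r ρ p d) {x : V} (hx : x ∈ M) {i : ℕ} (hi : i < d x) :
    p^[i] x ≠ r := h.ne_root (by have := (h.iter hx i hi.le).2; omega)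

theorem eq_root (h : LTree G M r ρ p d) {v : V} (hv : v ∈ M) (hd : d v = 0) : v = r := by
  by_contra hne
  have := h.d_succ v hv hne
  omega

theorem iter_root (h : LTree G M r ρ p d) {x : V} (hx : x ∈ M) : p^[d x] x = r :=
  h.eq_root (h.iter hx _ le_rfl).1 (by have := (h.iter hx _ le_rfl).2; omega)

theorem iter_lt (h : LTree G M r ρ p d) {x : V} (hx : x ∈ M) {i j : ℕ} (hij : i < j)
    (hj : j ≤ d x) : ρ (p^[j] x) < ρ (p^[i] x) := by
  induction j with
  | zero => omega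
  | succ j ih =>
    have h1 : ρ (p^[j + 1] x) < ρ (p^[j] x) := by
      rw [Function.iterate_succ_apply']
      exact h.lt _ (h.iter hx j (by omega)).1 (h.iter_ne hx (by omega))
    rcases Nat.lt_or_ge i j with hh | hh
    · exact h1.trans (ih hh (by omega))
    · have : i = j := by omega
      rw [this]; exact h1

theorem iter_le (h : LTree G M r ρ p d) {x : V} (hx : x ∈ M) {i j : ℕ} (hij : i ≤ j)
    (hj : j ≤ d x) : ρ (p^[j] x) ≤ ρ (p^[i] x) := by
  rcases Nat.lt_or_ge i j with hh | hh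
  · exact (h.iter_lt hx hh hj).le
  · have : i = j := by omega
    rw [this]

theorem iter_adj (h : LTree G M r ρ p d) {x : V} (hx : x ∈ M) {i : ℕ} (hi : i + 1 ≤ d x) :
    G.Adj (p^[i] x) (p^[i + 1] x) := by
  rw [Function.iterate_succ_apply']
  exact h.adj _ (h.iter hx i (by omega)).1 (h.iter_ne hx (by omega))

theorem iter_min (h : LTree G M r ρ p d) {x : V} (hx : x ∈ M) {i : ℕ} (hi : i + 1 ≤ d x)
    {u : V} (hu : G.Adj (p^[i] x) u) : ρ (p^[i + 1] x) ≤ ρ u := by
  rw [Function.iterate_succ_apply']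
  exact h.min _ (h.iter hx i (by omega)).1 (h.iter_ne hx (by omega)) _ hu

theorem iter_nadj (h : LTree G M r ρ p d) {x : V} (hx : x ∈ M) {i j : ℕ} (hij : i + 1 < j)
    (hj : j ≤ d x) : ¬ G.Adj (p^[i] x) (p^[j] x) := by
  intro hadj
  have h1 := h.iter_min hx (i := i) (by omega) hadj
  have h2 := h.iter_lt hx hij hj
  exact absurd h1 (not_le.2 h2)

theorem root_le (h : LTree G M r ρ p d) {v : V} (hv : v ∈ M) : ρ r ≤ ρ v := by
  have := h.iter_le hv (Nat.zero_le _) le_rfl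
  rwa [h.iter_root hv] at this

theorem p_eq_root (h : LTree G M r ρ p d) {v : V} (hv : v ∈ M) (hadj : G.Adj v r) : p v = r := by
  have hne : v ≠ r := hadj.ne
  exact h.inj (h.mem_p hv hne) h.root (le_antisymm (h.min v hv hne r hadj)
    (h.root_le (h.mem_p hv hne)))

theorem iter_inj (h : LTree G M r ρ p d) {x : V} (hx : x ∈ M) {i j : ℕ} (hi : i ≤ d x)
    (hj : j ≤ d x) (he : p^[i] x = p^[j] x) : i = j := by
  rcases Nat.lt_trichotomy i j with hh | hh | hh
  · exact absurd (congrArg ρ he) (h.iter_lt hx hh hj).ne'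
  · exact hh
  · exact absurd (congrArg ρ he) (h.iter_lt hx hh hi).ne

end LTree

end Pool.Agent.Helper24.OCM
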